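import Pool.Agent.Helper316TS.Graph

/-!
The graph has no proper 3-edge-colouring.
-/

set_option autoImplicit false

namespace Pool.Agent.Helper316TS

/-- code of the pair `{a, b}` -/
def cc (a b : ℕ) : ℕ := if a < b then a * 256 + b else b * 256 + a

/-- colour of the edge with code `e` -/
def col (c : Sym2 (Fin 190) → Fin 3) (e : ℕ) : Fin 3 := c s(q (e / 256), q (e % 256))

/-- proper colouring -/
def Proper (c : Sym2 (Fin 190) → Fin 3) : Prop :=
  ∀ v a b : Fin 190, G.Adj v a → G.Adj v b → a ≠ b → c s(v, a) ≠ c s(v, b)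

theorem col_cc (c : Sym2 (Fin 190) → Fin 3) {a b : ℕ} (ha : a < 190) (hb : b < 190) :
    col c (cc a b) = c s(q a, q b) := by
  unfold col cc
  split
  · have h1 : (a * 256 + b) / 256 = a := by omega
    have h2 : (a * 256 + b) % 256 = b := by omega
    rw [h1, h2]
  · have h1 : (b * 256 + a) / 256 = b := by omega
    have h2 : (b * 256 + a) % 256 = a := by omega
    rw [h1, h2, Sym2.eq_swap]

theorem vert_ne {c : Sym2 (Fin 190) → Fin 3} (hc : Proper c) {v i j : ℕ} (hv : v < 190)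
    (hi : i < 3) (hj : j < 3) (hij : nbr v i ≠ nbr v j) :
    col c (cc v (nbr v i)) ≠ col c (cc v (nbr v j)) := by
  rw [col_cc c hv (nb_spec hv hi).1, col_cc c hv (nb_spec hv hj).1]
  refine hc _ _ _ (G_adj_q hv hi) (G_adj_q hv hj) ?_
  intro h
  exact hij (q_inj (nb_spec hv hi).1 (nb_spec hv hj).1 h)

/-! ### parity -/

/-- the colours as elements of a group of order four -/
def kp : Fin 3 → ZMod 2 × ZMod 2
  | 0 => (1, 0)
  | 1 => (0, 1)
  | 2 => (1, 1)

theorem kp_sum : ∀ x y z : Fin 3, x ≠ y → x ≠ z → y ≠ z → kp x + kp y + kp z = 0 := by decide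

theorem kp_ne : ∀ x : Fin 3, kp x ≠ 0 := by decide

theorem kp_dist : ∀ x y z : Fin 3, kp x + kp y + kp z = 0 → x ≠ y ∧ x ≠ z ∧ y ≠ z := by decide

theorem self_add : ∀ x : ZMod 2 × ZMod 2, x + x = 0 := by decide

/-- the edges at the vertices of a list -/
def ed (Q : List ℕ) : List ℕ :=
  Q.flatMap fun v => [cc v (nbr v 0), cc v (nbr v 1), cc v (nbr v 2)]

theorem ed_sum {c : Sym2 (Fin 190) → Fin 3} (hc : Proper c) (Q : List ℕ) (hQ : ∀ v ∈ Q, v < 190) :
    ((ed Q).map fun e => kp (col c e)).sum = 0 := by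
  induction Q with
  | nil => rfl
  | cons v Q ih =>
    have hv := hQ v (by simp)
    have h1 : ed (v :: Q) = [cc v (nbr v 0), cc v (nbr v 1), cc v (nbr v 2)] ++ ed Q := by
      simp [ed]
    rw [h1, List.map_append, List.sum_append, ih fun w hw => hQ w (by simp [hw])]
    obtain ⟨a1, a2, a3⟩ := nb_ne hv
    have h2 := kp_sum _ _ _ (vert_ne hc hv (by norm_num : (0 : ℕ) < 3) (by norm_num : (1 : ℕ) < 3) a1)
      (vert_ne hc hv (by norm_num : (0 : ℕ) < 3) (by norm_num : (2 : ℕ) < 3) a2)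
      (vert_ne hc hv (by norm_num : (1 : ℕ) < 3) (by norm_num : (2 : ℕ) < 3) a3)
    simpa [add_assoc] using h2

theorem parity {c : Sym2 (Fin 190) → Fin 3} (hc : Proper c) (Q Dg In : List ℕ)
    (hQ : ∀ v ∈ Q, v < 190) (hp : (ed Q).Perm (Dg ++ (In ++ In))) :
    (Dg.map fun e => kp (col c e)).sum = 0 := by
  have h1 := ed_sum hc Q hQ
  rw [(hp.map _).sum_eq, List.map_append, List.sum_append, List.map_append, List.sum_append,
    self_add, add_zero] at h1
  exact h1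

/-! ### the superedges -/

/-- exhaustive search: there is no way to extend the colours `asg` of the first edges -/
def dfs : ℕ → List ℕ → Bool
  | 0, _ => false
  | n + 1, asg => allLT 3 fun k =>
      ((cf asg.length).any fun j => asg.getD (asg.length - 1 - j) 0 == k) || dfs n (k :: asg)

theorem dfs_true : dfs 30 [] = true := by decide +kernel

/-- the first `i` values -/
def asgn (z : ℕ → ℕ) : ℕ → List ℕ
  | 0 => []
  | i + 1 => z i :: asgn z i

theorem asgn_length (z : ℕ → ℕ) (i : ℕ) : (asgn z i).length = i := by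
  induction i with
  | zero => rfl
  | succ i ih => rw [asgn, List.length_cons, ih]

theorem asgn_get (z : ℕ → ℕ) (i j : ℕ) (h : j < i) : (asgn z i).getD (i - 1 - j) 0 = z j := by
  induction i with
  | zero => omega
  | succ i ih =>
    by_cases hj : j = i
    · subst hj
      have : j + 1 - 1 - j = 0 := by omega
      rw [this, asgn]
      rfl
    · have h1 : i + 1 - 1 - j = (i - 1 - j) + 1 := by omega
      rw [h1, asgn, List.getD_cons_succ]
      exact ih (by omega)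

def chkCf : Bool := allLT 30 fun i => (cf i).all fun j => Nat.blt j i

theorem chkCf_true : chkCf = true := by decide +kernel

theorem cf_lt {i j : ℕ} (hi : i < 30) (hj : j ∈ cf i) : j < i := by
  have h := allLT_spec chkCf_true i hi
  rw [List.all_eq_true] at h
  have := h j hj
  rwa [Nat.blt_eq] at this

theorem dfs_sound (z : ℕ → ℕ) (hz : ∀ i, i < 30 → z i < 3)
    (hcf : ∀ i, i < 30 → ∀ j ∈ cf i, z i ≠ z j) (n : ℕ) :
    ∀ i, n + i = 30 → dfs n (asgn z i) ≠ true := by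
  induction n with
  | zero => intro i _ h; exact absurd h (by simp [dfs])
  | succ n ih =>
    intro i hi h
    rw [dfs] at h
    have h1 := allLT_spec h (z i) (hz i (by omega))
    rw [Bool.or_eq_true] at h1
    rcases h1 with h1 | h1
    · rw [List.any_eq_true] at h1
      obtain ⟨j, hj, hj2⟩ := h1
      rw [asgn_length] at hj hj2
      rw [asgn_get z i j (cf_lt (by omega) hj), beq_iff_eq] at hj2
      exact hcf i (by omega) j hj hj2.symm
    · exact ih (i + 1) (by omega) h1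

/-- two codes of edges with a common vertex -/
def shB (e f : ℕ) : Bool :=
  (adjB (e / 256) (e % 256) && adjB (f / 256) (f % 256) &&
    Nat.blt (e / 256) 190 && Nat.blt (e % 256) 190 && Nat.blt (f / 256) 190 &&
    Nat.blt (f % 256) 190) &&
  ((e / 256 == f / 256 && e % 256 != f % 256) || (e / 256 == f % 256 && e % 256 != f / 256) ||
    (e % 256 == f / 256 && e / 256 != f % 256) || (e % 256 == f % 256 && e / 256 != f / 256))

theorem sh_spec {c : Sym2 (Fin 190) → Fin 3} (hc : Proper c) {e f : ℕ} (h : shB e f = true) :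
    col c e ≠ col c f := by
  unfold shB at h
  simp only [Bool.and_eq_true, Bool.or_eq_true, Nat.blt_eq, beq_iff_eq, bne_iff_ne] at h
  obtain ⟨⟨⟨⟨⟨⟨h1, h2⟩, b1⟩, b2⟩, b3⟩, b4⟩, h3⟩ := h
  have g1 : G.Adj (q (e / 256)) (q (e % 256)) := by rw [G_adj, q_val b1, q_val b2]; exact h1
  have g2 : G.Adj (q (f / 256)) (q (f % 256)) := by rw [G_adj, q_val b3, q_val b4]; exact h2
  unfold col
  rcases h3 with ((⟨h3, h4⟩ | ⟨h3, h4⟩) | ⟨h3, h4⟩) | ⟨h3, h4⟩
  · rw [← h3] at g2 ⊢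
    exact hc _ _ _ g1 g2 fun h => h4 (q_inj b2 b4 h)
  · rw [← h3] at g2 ⊢
    rw [Sym2.eq_swap (a := q (f / 256))]
    exact hc _ _ _ g1 g2.symm fun h => h4 (q_inj b2 b3 h)
  · rw [← h3] at g2 ⊢
    rw [Sym2.eq_swap (a := q (e / 256))]
    exact hc _ _ _ g1.symm g2 fun h => h4 (q_inj b1 b4 h)
  · rw [← h3] at g2 ⊢
    rw [Sym2.eq_swap (a := q (e / 256)), Sym2.eq_swap (a := q (f / 256))]
    exact hc _ _ _ g1.symm g2.symm fun h => h4 (q_inj b1 b3 h)

def chkE : Bool := allLT 6 fun p => allLT 30 fun i => (cf i).all fun j =>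
  (Nat.blt i 3) || shB ((El p).getD i 0) ((El p).getD j 0)

theorem chkE_true : chkE = true := by decide +kernel

/-- the sum of the colours of the first connector -/
def fs (c : Sym2 (Fin 190) → Fin 3) (p : ℕ) : ZMod 2 × ZMod 2 :=
  (((El p).take 3).map fun e => kp (col c e)).sum

/-- the sum of the colours of the second connector -/
def gs (c : Sym2 (Fin 190) → Fin 3) (p : ℕ) : ZMod 2 × ZMod 2 :=
  ((Wc p).map fun e => kp (col c e)).sum

theorem fs_eq (c : Sym2 (Fin 190) → Fin 3) {p : ℕ} (hp : p < 6) :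
    fs c p = kp (col c ((El p).getD 0 0)) + kp (col c ((El p).getD 1 0)) +
      kp (col c ((El p).getD 2 0)) := by
  have : p = 0 ∨ p = 1 ∨ p = 2 ∨ p = 3 ∨ p = 4 ∨ p = 5 := by omega
  rcases this with rfl | rfl | rfl | rfl | rfl | rfl <;> simp [fs, El, add_assoc]

theorem fs_ne {c : Sym2 (Fin 190) → Fin 3} (hc : Proper c) {p : ℕ} (hp : p < 6) :
    fs c p ≠ 0 := by
  intro h0
  rw [fs_eq c hp] at h0
  obtain ⟨d1, d2, d3⟩ := kp_dist _ _ _ h0
  refine dfs_sound (fun i => (col c ((El p).getD i 0)).val) (fun i _ => Fin.isLt _) ?_ 30 0 rfl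
    dfs_true
  intro i hi j hj h
  have hj1 := cf_lt hi hj
  have h' : col c ((El p).getD i 0) = col c ((El p).getD j 0) := Fin.ext h
  by_cases hi3 : i < 3
  · have : (i = 1 ∧ j = 0) ∨ (i = 2 ∧ j = 0) ∨ (i = 2 ∧ j = 1) := by omega
    rcases this with ⟨rfl, rfl⟩ | ⟨rfl, rfl⟩ | ⟨rfl, rfl⟩
    · exact d1 h'.symm
    · exact d2 h'.symm
    · exact d3 h'.symm
  · have h1 := allLT_spec (allLT_spec chkE_true p hp) i hi
    rw [List.all_eq_true] at h1
    have h2 := h1 j hj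
    rw [Bool.or_eq_true, Nat.blt_eq] at h2
    exact sh_spec hc (h2.resolve_left hi3) h'

def chkQ : Bool := allLT 6 fun p => (EQ p).all (fun v => Nat.blt v 190) &&
  (VQ p).all (fun v => Nat.blt v 190)

theorem chkQ_true : chkQ = true := by decide +kernel

theorem EQ_lt {p : ℕ} (hp : p < 6) : ∀ v ∈ EQ p, v < 190 := by
  have h := allLT_spec chkQ_true p hp
  rw [Bool.and_eq_true, List.all_eq_true, List.all_eq_true] at h
  intro v hv
  have := h.1 v hv
  rwa [Nat.blt_eq] at this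

theorem VQ_lt {p : ℕ} (hp : p < 6) : ∀ v ∈ VQ p, v < 190 := by
  have h := allLT_spec chkQ_true p hp
  rw [Bool.and_eq_true, List.all_eq_true, List.all_eq_true] at h
  intro v hv
  have := h.2 v hv
  rwa [Nat.blt_eq] at this

/-- the top of the `p`-th supervertex -/
def top : ℕ → ℕ
  | 0 => 4
  | 1 => 6
  | 2 => 8
  | 3 => 5
  | 4 => 7
  | 5 => 9
  | _ => 0

def chkP : Bool := allLT 6 fun p =>
  (ed (EQ p)).isPerm (((El p).take 3 ++ Wc p) ++ (EI p ++ EI p)) &&
  (ed (VQ p)).isPerm ((cc (nbr (top p) 0) (top p) :: ((El p).take 3 ++ Wc ((p + 5) % 6))) ++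
    (VI p ++ VI p))

theorem chkP_true : chkP = true := by decide +kernel

/-- colour of the edge above the `p`-th supervertex -/
def ts (c : Sym2 (Fin 190) → Fin 3) (p : ℕ) : ZMod 2 × ZMod 2 :=
  kp (col c (cc (nbr (top p) 0) (top p)))

theorem par_E {c : Sym2 (Fin 190) → Fin 3} (hc : Proper c) {p : ℕ} (hp : p < 6) :
    fs c p + gs c p = 0 := by
  have h := allLT_spec chkP_true p hp
  rw [Bool.and_eq_true, List.isPerm_iff, List.isPerm_iff] at h
  have h1 := parity hc _ _ _ (EQ_lt hp) h.1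
  rwa [List.map_append, List.sum_append] at h1

theorem par_V {c : Sym2 (Fin 190) → Fin 3} (hc : Proper c) {p : ℕ} (hp : p < 6) :
    ts c p + (fs c p + gs c ((p + 5) % 6)) = 0 := by
  have h := allLT_spec chkP_true p hp
  rw [Bool.and_eq_true, List.isPerm_iff, List.isPerm_iff] at h
  have h1 := parity hc _ _ _ (VQ_lt hp) h.2
  rwa [List.map_cons, List.sum_cons, List.map_append, List.sum_append] at h1

/-- the base graph (the Petersen graph) has no proper 3-edge-colouring -/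
def fin6 (f0 f1 f2 f3 f4 f5 : ZMod 2 × ZMod 2) : Bool :=
  f0 != 0 && f1 != 0 && f2 != 0 && f3 != 0 && f4 != 0 && f5 != 0 && f0 + f5 != 0 &&
    f1 + f0 != 0 && f2 + f1 != 0 && f3 + f2 != 0 && f4 + f3 != 0 && f5 + f4 != 0 &&
    (f0 + f5) + (f3 + f2) != 0 && (f1 + f0) + (f4 + f3) != 0 && (f2 + f1) + (f5 + f4) != 0

theorem fin6_false : ∀ f0 f1 f2 f3 f4 f5 : ZMod 2 × ZMod 2, fin6 f0 f1 f2 f3 f4 f5 = false := by
  decide +kernel

theorem finale (f0 f1 f2 f3 f4 f5 : ZMod 2 × ZMod 2) (h0 : f0 ≠ 0) (h1 : f1 ≠ 0) (h2 : f2 ≠ 0)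
    (h3 : f3 ≠ 0) (h4 : f4 ≠ 0) (h5 : f5 ≠ 0) (t0 : f0 + f5 ≠ 0) (t1 : f1 + f0 ≠ 0)
    (t2 : f2 + f1 ≠ 0) (t3 : f3 + f2 ≠ 0) (t4 : f4 + f3 ≠ 0) (t5 : f5 + f4 ≠ 0)
    (s1 : (f0 + f5) + (f3 + f2) ≠ 0) (s2 : (f1 + f0) + (f4 + f3) ≠ 0)
    (s3 : (f2 + f1) + (f5 + f4) ≠ 0) : False := by
  have h := fin6_false f0 f1 f2 f3 f4 f5
  have : fin6 f0 f1 f2 f3 f4 f5 = true := by
    unfold fin6
    simp only [Bool.and_eq_true, bne_iff_ne]
    exact ⟨⟨⟨⟨⟨⟨⟨⟨⟨⟨⟨⟨⟨⟨h0, h1⟩, h2⟩, h3⟩, h4⟩, h5⟩, t0⟩, t1⟩, t2⟩, t3⟩, t4⟩, t5⟩, s1⟩, s2⟩, s3⟩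
  rw [h] at this
  exact Bool.false_ne_true this

theorem alg : ∀ t f f' g' : ZMod 2 × ZMod 2, t + (f + g') = 0 → f' + g' = 0 →
    t = f + f' := by
  decide

theorem G_col : ¬ EdgeCol3 G := by
  rintro ⟨c, hc⟩
  have hc : Proper c := hc
  have T0 : ts c 0 = fs c 0 + fs c 5 := alg _ _ _ _ (par_V hc (by norm_num)) (par_E hc (by norm_num))
  have T1 : ts c 1 = fs c 1 + fs c 0 := alg _ _ _ _ (par_V hc (by norm_num)) (par_E hc (by norm_num))
  have T2 : ts c 2 = fs c 2 + fs c 1 := alg _ _ _ _ (par_V hc (by norm_num)) (par_E hc (by norm_num))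
  have T3 : ts c 3 = fs c 3 + fs c 2 := alg _ _ _ _ (par_V hc (by norm_num)) (par_E hc (by norm_num))
  have T4 : ts c 4 = fs c 4 + fs c 3 := alg _ _ _ _ (par_V hc (by norm_num)) (par_E hc (by norm_num))
  have T5 : ts c 5 = fs c 5 + fs c 4 := alg _ _ _ _ (par_V hc (by norm_num)) (par_E hc (by norm_num))
  have tne : ∀ p, ts c p ≠ 0 := fun p => kp_ne _
  -- the edges at the vertices 1, 2, 3
  have S : ∀ j a b : ℕ, j < 190 → j ≠ 0 → nbr j 0 < 190 → cc j (nbr j 1) = a → cc j (nbr j 2) = b →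
      kp (col c a) + kp (col c b) ≠ 0 := by
    intro j a b hj _ _ ha hb h0
    obtain ⟨n1, n2, n3⟩ := nb_ne hj
    have h := kp_sum _ _ _ (vert_ne hc hj (by norm_num : (0 : ℕ) < 3) (by norm_num : (1 : ℕ) < 3) n1)
      (vert_ne hc hj (by norm_num : (0 : ℕ) < 3) (by norm_num : (2 : ℕ) < 3) n2)
      (vert_ne hc hj (by norm_num : (1 : ℕ) < 3) (by norm_num : (2 : ℕ) < 3) n3)
    rw [ha, hb, add_assoc, h0, add_zero] at h
    exact kp_ne _ h
  have S1 : ts c 0 + ts c 3 ≠ 0 := S 1 _ _ (by norm_num) (by norm_num) (by decide +kernel)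
    (by decide +kernel) (by decide +kernel)
  have S2 : ts c 1 + ts c 4 ≠ 0 := S 2 _ _ (by norm_num) (by norm_num) (by decide +kernel)
    (by decide +kernel) (by decide +kernel)
  have S3 : ts c 2 + ts c 5 ≠ 0 := S 3 _ _ (by norm_num) (by norm_num) (by decide +kernel)
    (by decide +kernel) (by decide +kernel)
  have t0 := tne 0
  have t1 := tne 1
  have t2 := tne 2
  have t3 := tne 3
  have t4 := tne 4
  have t5 := tne 5
  rw [T0] at t0 S1
  rw [T1] at t1 S2
  rw [T2] at t2 S3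
  rw [T3] at t3 S1
  rw [T4] at t4 S2
  rw [T5] at t5 S3
  exact finale (fs c 0) (fs c 1) (fs c 2) (fs c 3) (fs c 4) (fs c 5) (fs_ne hc (by norm_num))
    (fs_ne hc (by norm_num)) (fs_ne hc (by norm_num)) (fs_ne hc (by norm_num))
    (fs_ne hc (by norm_num)) (fs_ne hc (by norm_num)) t0 t1 t2 t3 t4 t5 S1 S2 S3

end Pool.Agent.Helper316TS
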