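import Pool.Agent.Helper316TS.Tree

/-!
The graph is cyclically 4-edge-connected.
-/

set_option autoImplicit false

namespace Pool.Agent.Helper316TS

/-- mask of the path from `u` to the root, with fuel -/
def pmF : ℕ → ℕ → ℕ
  | 0, _ => 0
  | n + 1, u => if u = 0 then 0 else (2 ^ u) ^^^ (pmF n (par u))

/-- mask of the path from `u` to the root -/
def pm (u : ℕ) : ℕ := pmF 7 u

def chkPm : Bool := allLT 190 fun u =>
  !(pm u).testBit 0 && (u == 0 || pm u == (2 ^ u) ^^^ (pm (par u)))

theorem chkPm_true : chkPm = true := by decide +kernel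

theorem pm_rec {u : ℕ} (hu : u < 190) (h : u ≠ 0) : pm u = (2 ^ u) ^^^ (pm (par u)) := by
  have := allLT_spec chkPm_true u hu
  rw [Bool.and_eq_true, Bool.or_eq_true, beq_iff_eq, beq_iff_eq] at this
  exact this.2.resolve_left h

theorem pm_bit0 {u : ℕ} (hu : u < 190) : (pm u).testBit 0 = false := by
  have := allLT_spec chkPm_true u hu
  rw [Bool.and_eq_true] at this
  simpa using this.1

/-- the edges between leaves -/
def chkF : Bool := allLT 96 fun k => Nat.blt 93 (fa k) && Nat.blt (fa k) (fb k) &&
  Nat.blt (fb k) 190 && adjB (fa k) (fb k)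

theorem chkF_true : chkF = true := by decide +kernel

theorem F_spec {k : ℕ} (hk : k < 96) : 93 < fa k ∧ fa k < fb k ∧ fb k < 190 ∧
    adjB (fa k) (fb k) = true := by
  have := allLT_spec chkF_true k hk
  rw [Bool.and_eq_true, Bool.and_eq_true, Bool.and_eq_true, Nat.blt_eq, Nat.blt_eq,
    Nat.blt_eq] at this
  exact ⟨this.1.1.1, this.1.1.2, this.1.2, this.2⟩

def chkFi : Bool := allLT 95 fun k => Nat.blt (fa k * 256 + fb k) (fa (k + 1) * 256 + fb (k + 1))

theorem chkFi_true : chkFi = true := by decide +kernel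

theorem F_mono {j k : ℕ} (hjk : j < k) (hk : k < 96) :
    fa j * 256 + fb j < fa k * 256 + fb k := by
  induction k with
  | zero => omega
  | succ k ih =>
    have h1 := allLT_spec chkFi_true k (by omega)
    rw [Nat.blt_eq] at h1
    rcases Nat.lt_succ_iff_lt_or_eq.1 hjk with h | h
    · exact (ih h (by omega)).trans h1
    · rw [h]; exact h1

def chkT : Bool := allLT 96 fun k => allLT 190 fun v =>
  (nm v).testBit k == ((pm (fa k)).testBit v != (pm (fb k)).testBit v)

theorem chkT_true : chkT = true := by decide +kernel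

theorem T_spec {k v : ℕ} (hk : k < 96) (hv : v < 190) :
    (nm v).testBit k = ((pm (fa k)).testBit v != (pm (fb k)).testBit v) := by
  have := allLT_spec (allLT_spec chkT_true k hk) v hv
  rwa [beq_iff_eq] at this

/-- two different bits of `z` -/
def two (z : ℕ) : Bool :=
  Nat.blt (Nat.log2 z) 96 && Nat.blt (Nat.log2 (z ^^^ (2 ^ Nat.log2 z))) (Nat.log2 z) &&
    z.testBit (Nat.log2 z) && z.testBit (Nat.log2 (z ^^^ (2 ^ Nat.log2 z)))

theorem two_spec {z : ℕ} (h : two z = true) : ∃ i j, i < j ∧ j < 96 ∧ z.testBit i = true ∧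
    z.testBit j = true := by
  unfold two at h
  rw [Bool.and_eq_true, Bool.and_eq_true, Bool.and_eq_true, Nat.blt_eq, Nat.blt_eq] at h
  exact ⟨_, _, h.1.1.2, h.1.1.1, h.2, h.1.2⟩

/-- three different bits of `z` -/
def three (z : ℕ) : Bool :=
  Nat.blt (Nat.log2 z) 96 && z.testBit (Nat.log2 z) && two (z ^^^ (2 ^ Nat.log2 z)) &&
    Nat.blt (z ^^^ (2 ^ Nat.log2 z)) (2 ^ Nat.log2 z)

theorem three_spec {z : ℕ} (h : three z = true) : ∃ i j k, i < j ∧ j < k ∧ k < 96 ∧
    z.testBit i = true ∧ z.testBit j = true ∧ z.testBit k = true := by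
  unfold three at h
  rw [Bool.and_eq_true, Bool.and_eq_true, Bool.and_eq_true, Nat.blt_eq, Nat.blt_eq] at h
  obtain ⟨⟨⟨h1, h2⟩, h3⟩, h4⟩ := h
  obtain ⟨i, j, hij, hj, hi1, hj1⟩ := two_spec h3
  have key : ∀ t, (z ^^^ (2 ^ Nat.log2 z)).testBit t = true →
      t < Nat.log2 z ∧ z.testBit t = true := by
    intro t ht
    have h5 : t < Nat.log2 z := by
      by_contra hcon
      have h6 := Nat.testBit_lt_two_pow (lt_of_lt_of_le h4
        (Nat.pow_le_pow_right (by norm_num) (not_lt.1 hcon)))
      rw [h6] at ht
      exact absurd ht (by simp)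
    refine ⟨h5, ?_⟩
    rw [Nat.testBit_xor, Nat.testBit_two_pow] at ht
    have h7 : decide (Nat.log2 z = t) = false := by simp; omega
    rw [h7] at ht
    simpa using ht
  exact ⟨i, j, Nat.log2 z, hij, (key j hj1).1, h1, (key i hi1).2, (key j hj1).2, h2⟩

/-- single tree edges -/
def chk1 : Bool := allLT 94 fun a => a == 0 || three (nm a)

theorem chk1_true : chk1 = true := by decide +kernel

/-- pairs of tree edges -/
def chk2 : Bool := allLT 190 fun b => allLT b fun a => a == 0 ||
  (two (nm a ^^^ nm b) &&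
    (nm (look (nm a ^^^ nm b)) != nm a ^^^ nm b || Nat.ble (look (nm a ^^^ nm b)) b ||
      (b == 2 * a + 2 && look (nm a ^^^ nm b) == 2 * a + 3) || look (nm a ^^^ nm b) == 3))

theorem chk2_true : chk2 = true := by decide +kernel

def chk3 : Bool := allLT 190 fun c => c == 0 || look (nm c) == c

theorem chk3_true : chk3 = true := by decide +kernel

theorem one_spec {a : ℕ} (h0 : a ≠ 0) (h : a < 94) : three (nm a) = true := by
  have := allLT_spec chk1_true a h
  rw [Bool.or_eq_true, beq_iff_eq] at this
  exact this.resolve_left h0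

theorem pair_spec {a b : ℕ} (h0 : a ≠ 0) (hab : a < b) (hb : b < 190) :
    two (nm a ^^^ nm b) = true ∧ ∀ c, b < c → c < 190 → nm c = nm a ^^^ nm b →
      (b = 2 * a + 2 ∧ c = 2 * a + 3) ∨ c = 3 := by
  have := allLT_spec (allLT_spec chk2_true b hb) a hab
  rw [Bool.or_eq_true, beq_iff_eq] at this
  have h1 := this.resolve_left h0
  rw [Bool.and_eq_true] at h1
  refine ⟨h1.1, ?_⟩
  intro c hbc hc hz
  have h3 := allLT_spec chk3_true c hc
  rw [Bool.or_eq_true, beq_iff_eq, beq_iff_eq] at h3
  have h4 := h3.resolve_left (by omega)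
  have h5 := h1.2
  rw [← hz, h4] at h5
  simp only [Bool.or_eq_true, Bool.and_eq_true, bne_iff_ne, beq_iff_eq, Nat.ble_eq] at h5
  rcases h5 with ((h5 | h5) | h5) | h5
  · exact absurd rfl h5
  · omega
  · exact Or.inl h5
  · exact Or.inr h5

theorem bl : ∀ x y z A B C a b c : Bool, (x != y) = (a != (b != c)) →
    y = (z != (A != (B != C))) → x = (z != ((a != A) != ((b != B) != (c != C)))) := by
  decide

theorem bl2 : ∀ x y z A B C A' B' C' : Bool, x = (z != (A != (B != C))) →
    y = (z != (A' != (B' != C'))) →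
    (x != y) = (((A != A') != (B != B')) != (C != C')) := by
  decide

theorem path_spec (α : ℕ → Bool) (a b c : ℕ)
    (h : ∀ u, u ≠ 0 → u < 190 → (α u != α (par u)) =
      (decide (u = a) != (decide (u = b) != decide (u = c)))) (n : ℕ) :
    n < 190 → α n = (α 0 != ((pm n).testBit a != ((pm n).testBit b != (pm n).testBit c))) := by
  induction n using Nat.strong_induction_on with
  | _ n ih =>
    intro hn
    by_cases h0 : n = 0
    · subst h0
      have : pm 0 = 0 := rfl
      rw [this]
      simp
    · have h1 := ih (par n) (par_lt h0) (lt_trans (par_lt h0) hn)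
      have h2 := bl _ _ _ _ _ _ _ _ _ (h n h0 hn) h1
      rw [pm_rec hn h0]
      simp only [Nat.testBit_xor, Nat.testBit_two_pow]
      simpa using h2

theorem y_spec (α : ℕ → Bool) (a b c : ℕ) (ha : a < 190) (hb : b < 190) (hc : c < 190)
    (h : ∀ u, u ≠ 0 → u < 190 → (α u != α (par u)) =
      (decide (u = a) != (decide (u = b) != decide (u = c)))) {k : ℕ} (hk : k < 96) :
    (α (fa k) != α (fb k)) = ((nm a ^^^ nm b) ^^^ nm c).testBit k := by
  obtain ⟨h1, h2, h3, -⟩ := F_spec hk
  have e1 := path_spec α a b c h (fa k) (by omega)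
  have e2 := path_spec α a b c h (fb k) (by omega)
  rw [bl2 _ _ _ _ _ _ _ _ _ e1 e2]
  simp only [Nat.testBit_xor, T_spec hk ha, T_spec hk hb, T_spec hk hc]

/-- cut tree edges -/
def cI (α : ℕ → Bool) : Finset ℕ := (Finset.range 190).filter (fun i => i ≠ 0 ∧ α i ≠ α (par i))

/-- cut leaf edges -/
def cY (α : ℕ → Bool) : Finset ℕ := (Finset.range 96).filter (fun k => α (fa k) ≠ α (fb k))

theorem mem_cI {α : ℕ → Bool} {i : ℕ} : i ∈ cI α ↔ i < 190 ∧ i ≠ 0 ∧ α i ≠ α (par i) := by
  simp [cI]

theorem mem_cY {α : ℕ → Bool} {k : ℕ} : k ∈ cY α ↔ k < 96 ∧ α (fa k) ≠ α (fb k) := by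
  simp [cY]

theorem sorted3 (s : Finset ℕ) (h : s.card = 3) :
    ∃ a b c, a < b ∧ b < c ∧ ∀ i, i ∈ s ↔ i = a ∨ i = b ∨ i = c := by
  obtain ⟨x, y, z, hxy, hxz, hyz, rfl⟩ := Finset.card_eq_three.1 h
  have hm : ∀ i, i ∈ ({x, y, z} : Finset ℕ) ↔ i = x ∨ i = y ∨ i = z := by intro i; simp
  rcases lt_or_gt_of_ne hxy with h1 | h1 <;> rcases lt_or_gt_of_ne hxz with h2 | h2 <;>
    rcases lt_or_gt_of_ne hyz with h3 | h3
  · exact ⟨x, y, z, h1, h3, hm⟩
  · exact ⟨x, z, y, h2, h3, fun i => by rw [hm]; tauto⟩
  · omega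
  · exact ⟨z, x, y, h2, h1, fun i => by rw [hm]; tauto⟩
  · exact ⟨y, x, z, h1, h2, fun i => by rw [hm]; tauto⟩
  · omega
  · exact ⟨y, z, x, h3, h2, fun i => by rw [hm]; tauto⟩
  · exact ⟨z, y, x, h3, h1, fun i => by rw [hm]; tauto⟩

theorem sorted2 (s : Finset ℕ) (h : s.card = 2) :
    ∃ a b, a < b ∧ ∀ i, i ∈ s ↔ i = a ∨ i = b := by
  obtain ⟨x, y, hxy, rfl⟩ := Finset.card_eq_two.1 h
  have hm : ∀ i, i ∈ ({x, y} : Finset ℕ) ↔ i = x ∨ i = y := by intro i; simp
  rcases lt_or_gt_of_ne hxy with h1 | h1
  · exact ⟨x, y, h1, hm⟩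
  · exact ⟨y, x, h1, fun i => by rw [hm]; tauto⟩

theorem bne_of (x y : Bool) (P : Prop) [Decidable P] (h : x ≠ y ↔ P) : (x != y) = decide P := by
  by_cases hP : P
  · rw [decide_eq_true hP, bne_iff_ne]; exact h.2 hP
  · rw [decide_eq_false hP]
    by_contra hcon
    have : (x != y) = true := by
      cases hb : (x != y)
      · exact absurd hb hcon
      · rfl
    exact hP (h.1 (bne_iff_ne.1 this))

theorem nm_lt (v : ℕ) : nm v < 2 ^ 96 := by
  unfold nm
  have : (79228162514264337593543950336 : ℕ) = 2 ^ 96 := by norm_num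
  rw [this]
  exact Nat.mod_lt _ (by positivity)

theorem cut_spec (α : ℕ → Bool) (hc : (cI α).card + (cY α).card ≤ 3) :
    ∃ v, ∀ u w, u < 190 → w < 190 → u ≠ v → w ≠ v → α u = α w := by
  have hcases : (cI α).card = 0 ∨ (cI α).card = 1 ∨ (cI α).card = 2 ∨ (cI α).card = 3 := by omega
  -- it is enough that all vertices but `v` agree
  rcases hcases with h | h | h | h
  · rw [Finset.card_eq_zero] at h
    have hall : ∀ n, n < 190 → α n = α 0 := by
      intro n
      induction n using Nat.strong_induction_on with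
      | _ n ih =>
        intro hn
        by_cases h0 : n = 0
        · rw [h0]
        · have h1 : n ∉ cI α := by rw [h]; simp
          rw [mem_cI] at h1
          have h2 : α n = α (par n) := by
            by_contra hcon
            exact h1 ⟨hn, h0, hcon⟩
          rw [h2]
          exact ih _ (par_lt h0) (lt_trans (par_lt h0) hn)
    exact ⟨0, fun u w hu hw _ _ => by rw [hall u hu, hall w hw]⟩
  · obtain ⟨a, ha⟩ := Finset.card_eq_one.1 h
    have hm : ∀ i, i ∈ cI α ↔ i = a := by intro i; rw [ha]; simp
    have ha1 := mem_cI.1 ((hm a).2 rfl)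
    by_cases hleaf : a < 94
    · exfalso
      have hx : ∀ u, u ≠ 0 → u < 190 → (α u != α (par u)) =
          (decide (u = a) != (decide (u = 0) != decide (u = 0))) := by
        intro u hu0 hu
        have h1 : α u ≠ α (par u) ↔ u = a := by
          rw [← hm u, mem_cI]
          exact ⟨fun h => ⟨hu, hu0, h⟩, fun h => h.2.2⟩
        rw [bne_of _ _ _ h1]
        simp
      obtain ⟨i, j, k, hij, hjk, hk, b1, b2, b3⟩ := three_spec (one_spec ha1.2.1 hleaf)
      have hz : (nm a ^^^ nm 0) ^^^ nm 0 = nm a := by
        rw [Nat.xor_assoc, Nat.xor_self, Nat.xor_zero]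
      have hy : ∀ t, t < 96 → (nm a).testBit t = true → t ∈ cY α := by
        intro t ht hb
        rw [mem_cY]
        have := y_spec α a 0 0 ha1.1 (by norm_num) (by norm_num) hx ht
        rw [hz, hb, bne_iff_ne] at this
        exact ⟨ht, this⟩
      have hsub : ({i, j, k} : Finset ℕ) ⊆ cY α := by
        intro t ht
        simp only [Finset.mem_insert, Finset.mem_singleton] at ht
        rcases ht with rfl | rfl | rfl
        · exact hy _ (by omega) b1
        · exact hy _ (by omega) b2
        · exact hy _ (by omega) b3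
      have h3 : ({i, j, k} : Finset ℕ).card = 3 := by
        rw [Finset.card_eq_three]
        exact ⟨i, j, k, by omega, by omega, by omega, rfl⟩
      have := Finset.card_le_card hsub
      omega
    · refine ⟨a, ?_⟩
      have hall : ∀ n, n < 190 → n ≠ a → α n = α 0 := by
        intro n
        induction n using Nat.strong_induction_on with
        | _ n ih =>
          intro hn hna
          by_cases h0 : n = 0
          · rw [h0]
          · have h1 : n ∉ cI α := fun h => hna ((hm n).1 h)
            rw [mem_cI] at h1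
            have h2 : α n = α (par n) := by
              by_contra hcon
              exact h1 ⟨hn, h0, hcon⟩
            rw [h2]
            refine ih _ (par_lt h0) (lt_trans (par_lt h0) hn) ?_
            have : par n ≤ 93 := by unfold par; split <;> omega
            omega
      intro u w hu hw hua hwa
      rw [hall u hu hua, hall w hw hwa]
  · exfalso
    obtain ⟨a, b, hab, hm⟩ := sorted2 _ h
    have ha1 := mem_cI.1 ((hm a).2 (Or.inl rfl))
    have hb1 := mem_cI.1 ((hm b).2 (Or.inr rfl))
    have hx : ∀ u, u ≠ 0 → u < 190 → (α u != α (par u)) =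
        (decide (u = a) != (decide (u = b) != decide (u = 0))) := by
      intro u hu0 hu
      have h1 : α u ≠ α (par u) ↔ (u = a ∨ u = b) := by
        rw [← hm u, mem_cI]
        exact ⟨fun h => ⟨hu, hu0, h⟩, fun h => h.2.2⟩
      rw [bne_of _ _ _ h1]
      by_cases e1 : u = a
      · have e2 : u ≠ b := by omega
        simp [e1]
        omega
      · by_cases e2 : u = b
        · simp [e2]
          omega
        · simp [e1, e2, hu0]
    obtain ⟨i, j, hij, hj, b1, b2⟩ := two_spec (pair_spec ha1.2.1 hab hb1.1).1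
    have hz : (nm a ^^^ nm b) ^^^ nm 0 = nm a ^^^ nm b := by
      have : nm 0 = 0 := by decide +kernel
      rw [this, Nat.xor_zero]
    have hy : ∀ t, t < 96 → (nm a ^^^ nm b).testBit t = true → t ∈ cY α := by
      intro t ht hb
      rw [mem_cY]
      have := y_spec α a b 0 ha1.1 hb1.1 (by norm_num) hx ht
      rw [hz, hb, bne_iff_ne] at this
      exact ⟨ht, this⟩
    have hsub : ({i, j} : Finset ℕ) ⊆ cY α := by
      intro t ht
      simp only [Finset.mem_insert, Finset.mem_singleton] at ht
      rcases ht with rfl | rfl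
      · exact hy _ (by omega) b1
      · exact hy _ (by omega) b2
    have h3 : ({i, j} : Finset ℕ).card = 2 := by
      rw [Finset.card_eq_two]
      exact ⟨i, j, by omega, rfl⟩
    have := Finset.card_le_card hsub
    omega
  · obtain ⟨a, b, c, hab, hbc, hm⟩ := sorted3 _ h
    have ha1 := mem_cI.1 ((hm a).2 (Or.inl rfl))
    have hb1 := mem_cI.1 ((hm b).2 (Or.inr (Or.inl rfl)))
    have hc1 := mem_cI.1 ((hm c).2 (Or.inr (Or.inr rfl)))
    have hx : ∀ u, u ≠ 0 → u < 190 → (α u != α (par u)) =
        (decide (u = a) != (decide (u = b) != decide (u = c))) := by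
      intro u hu0 hu
      have h1 : α u ≠ α (par u) ↔ (u = a ∨ u = b ∨ u = c) := by
        rw [← hm u, mem_cI]
        exact ⟨fun h => ⟨hu, hu0, h⟩, fun h => h.2.2⟩
      rw [bne_of _ _ _ h1]
      by_cases e1 : u = a
      · have e2 : u ≠ b := by omega
        have e3 : u ≠ c := by omega
        simp [e1]
        omega
      · by_cases e2 : u = b
        · have e3 : u ≠ c := by omega
          simp [e2]
          omega
        · by_cases e3 : u = c
          · simp [e3]
            omega
          · simp [e1, e2, e3]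
    have hY : cY α = ∅ := by
      rw [← Finset.card_eq_zero]; omega
    have hzero : ∀ t, ((nm a ^^^ nm b) ^^^ nm c).testBit t = false := by
      intro t
      by_cases ht : t < 96
      · have h1 := y_spec α a b c ha1.1 hb1.1 hc1.1 hx ht
        rw [← h1]
        have h2 : t ∉ cY α := by rw [hY]; simp
        rw [mem_cY] at h2
        by_contra hcon
        have : (α (fa t) != α (fb t)) = true := by
          cases hb : (α (fa t) != α (fb t))
          · exact absurd hb hcon
          · rfl
        exact h2 ⟨ht, bne_iff_ne.1 this⟩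
      · have hlt : (nm a ^^^ nm b) ^^^ nm c < 2 ^ 96 :=
          Nat.xor_lt_two_pow (Nat.xor_lt_two_pow (nm_lt a) (nm_lt b)) (nm_lt c)
        exact Nat.testBit_lt_two_pow (lt_of_lt_of_le hlt
          (Nat.pow_le_pow_right (by norm_num) (not_lt.1 ht)))
    have hz0 : (nm a ^^^ nm b) ^^^ nm c = 0 :=
      Nat.eq_of_testBit_eq fun t => by rw [hzero t, Nat.zero_testBit]
    have hz1 : nm c = nm a ^^^ nm b := by
      have h1 : ((nm a ^^^ nm b) ^^^ nm c) ^^^ nm c = 0 ^^^ nm c := by rw [hz0]
      rw [Nat.xor_assoc, Nat.xor_self, Nat.xor_zero, Nat.zero_xor] at h1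
      exact h1.symm
    rcases (pair_spec ha1.2.1 hab hb1.1).2 c hbc hc1.1 hz1 with ⟨e1, e2⟩ | e3
    · refine ⟨a, ?_⟩
      have hpb : par b = a := by rw [e1]; unfold par; split <;> omega
      have hpc : par c = a := by rw [e2]; unfold par; split <;> omega
      have hall : ∀ n, n < 190 → n ≠ a → α n = α 0 := by
        intro n
        induction n using Nat.strong_induction_on with
        | _ n ih =>
          intro hn hna
          by_cases h0 : n = 0
          · rw [h0]
          · by_cases hbc' : n = b ∨ n = c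
            · have hpn : par n = a := by rcases hbc' with rfl | rfl <;> assumption
              have h1 : α n ≠ α (par n) :=
                (mem_cI.1 ((hm n).2 (Or.inr hbc'))).2.2
              rw [hpn] at h1
              have h2 := ha1.2.2
              have h3 : α n = α (par a) := by
                revert h1 h2
                cases α n <;> cases α a <;> cases α (par a) <;> simp
              rw [h3]
              have hpa := par_lt ha1.2.1
              exact ih _ (by have := par_lt h0; omega) (by omega) (by omega)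
            · have h1 : n ∉ cI α := fun h => by
                rcases (hm n).1 h with h | h
                · exact hna h
                · exact hbc' h
              rw [mem_cI] at h1
              have h2 : α n = α (par n) := by
                by_contra hcon
                exact h1 ⟨hn, h0, hcon⟩
              rw [h2]
              refine ih _ (par_lt h0) (lt_trans (par_lt h0) hn) ?_
              intro hpn
              apply hbc'
              have ha0 := ha1.2.1
              rw [e1, e2]
              revert hpn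
              unfold par
              split <;> omega
      intro u w hu hw hua hwa
      rw [hall u hu hua, hall w hw hwa]
    · refine ⟨0, ?_⟩
      have ha0 := ha1.2.1
      have hall : ∀ n, n < 190 → n ≠ 0 → α n ≠ α 0 := by
        intro n
        induction n using Nat.strong_induction_on with
        | _ n ih =>
          intro hn h0
          by_cases hle : n ≤ 3
          · have h1 : n ∈ cI α := (hm n).2 (by omega)
            have h2 := (mem_cI.1 h1).2.2
            have h3 : par n = 0 := by unfold par; split <;> omega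
            rwa [h3] at h2
          · have h1 : n ∉ cI α := fun h => by
              rcases (hm n).1 h with h | h | h <;> omega
            rw [mem_cI] at h1
            have h2 : α n = α (par n) := by
              by_contra hcon
              exact h1 ⟨hn, h0, hcon⟩
            rw [h2]
            refine ih _ (par_lt h0) (lt_trans (par_lt h0) hn) ?_
            unfold par
            split <;> omega
      intro u w hu hw hua hwa
      have h1 := hall u hu hua
      have h2 := hall w hw hwa
      revert h1 h2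
      cases α u <;> cases α w <;> cases α 0 <;> simp

/-- the tree edges and the leaf edges as edges of the graph -/
theorem tree_edge_inj {i j : ℕ} (hi : i < 190) (hj : j < 190) (hi0 : i ≠ 0) (hj0 : j ≠ 0)
    (h : s(q i, q (par i)) = s(q j, q (par j))) : i = j := by
  rw [Sym2.eq_iff] at h
  have h1 := par_lt hi0
  have h2 := par_lt hj0
  rcases h with ⟨h, -⟩ | ⟨h, h'⟩
  · exact q_inj hi hj h
  · have e1 := q_inj hi (by omega) h
    have e2 := q_inj (by omega) hj h'
    omega

theorem leaf_edge_inj {i j : ℕ} (hi : i < 96) (hj : j < 96)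
    (h : s(q (fa i), q (fb i)) = s(q (fa j), q (fb j))) : i = j := by
  obtain ⟨a1, a2, a3, -⟩ := F_spec hi
  obtain ⟨b1, b2, b3, -⟩ := F_spec hj
  have key : fa i = fa j ∧ fb i = fb j := by
    rw [Sym2.eq_iff] at h
    rcases h with ⟨h, h'⟩ | ⟨h, h'⟩
    · exact ⟨q_inj (by omega) (by omega) h, q_inj (by omega) (by omega) h'⟩
    · have e1 := q_inj (by omega) (by omega) h
      have e2 := q_inj (by omega) (by omega) h'
      omega
  rcases lt_trichotomy i j with h1 | h1 | h1
  · have := F_mono h1 hj
    rw [key.1, key.2] at this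
    omega
  · exact h1
  · have := F_mono h1 hi
    rw [key.1, key.2] at this
    omega

theorem G_cyc : CycConn G 4 := by
  classical
  rintro D hD hcard ⟨C₁, C₂, hne, ⟨v₁, p₁, hp₁, hc₁⟩, ⟨v₂, p₂, hp₂, hc₂⟩⟩
  obtain ⟨H, hH⟩ : ∃ H, H = G.deleteEdges D := ⟨_, rfl⟩
  obtain ⟨α, hα⟩ : ∃ α : ℕ → Bool, ∀ i, α i = true ↔
      (G.deleteEdges D).connectedComponentMk (q i) = C₁ :=
    ⟨fun i => decide ((G.deleteEdges D).connectedComponentMk (q i) = C₁), fun i => by simp⟩
  have hcut : ∀ i j, G.Adj (q i) (q j) → α i ≠ α j → s(q i, q j) ∈ D := by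
    intro i j hadj hij
    by_contra hcon
    have h1 : (G.deleteEdges D).Adj (q i) (q j) := by
      rw [SimpleGraph.deleteEdges_adj]; exact ⟨hadj, hcon⟩
    have h2 : (G.deleteEdges D).connectedComponentMk (q i) =
        (G.deleteEdges D).connectedComponentMk (q j) :=
      SimpleGraph.ConnectedComponent.sound h1.reachable
    apply hij
    rw [Bool.eq_iff_iff, hα, hα, h2]
  let U₁ : Finset (Sym2 (Fin 190)) := (cI α).image (fun i => s(q i, q (par i)))
  let U₂ : Finset (Sym2 (Fin 190)) := (cY α).image (fun k => s(q (fa k), q (fb k)))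
  have hU₁ : U₁.card = (cI α).card := by
    refine Finset.card_image_of_injOn ?_
    intro i hi j hj h
    have h1 := mem_cI.1 (Finset.mem_coe.1 hi)
    have h2 := mem_cI.1 (Finset.mem_coe.1 hj)
    exact tree_edge_inj h1.1 h2.1 h1.2.1 h2.2.1 h
  have hU₂ : U₂.card = (cY α).card := by
    refine Finset.card_image_of_injOn ?_
    intro i hi j hj h
    have h1 := mem_cY.1 (Finset.mem_coe.1 hi)
    have h2 := mem_cY.1 (Finset.mem_coe.1 hj)
    exact leaf_edge_inj h1.1 h2.1 h
  have hdisj : Disjoint U₁ U₂ := by
    rw [Finset.disjoint_left]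
    intro e he1 he2
    obtain ⟨i, hi, rfl⟩ := Finset.mem_image.1 he1
    obtain ⟨k, hk, hek⟩ := Finset.mem_image.1 he2
    have h1 := mem_cI.1 hi
    have h2 := F_spec (mem_cY.1 hk).1
    have h3 : par i ≤ 93 := by
      have := h1.1
      unfold par; split <;> omega
    rw [Sym2.eq_iff] at hek
    rcases hek with ⟨-, h⟩ | ⟨h, -⟩
    · have := q_inj (by omega) (by omega) h
      omega
    · have := q_inj (by omega) (by omega) h
      omega
  have hsub : ((U₁ ∪ U₂ : Finset (Sym2 (Fin 190))) : Set (Sym2 (Fin 190))) ⊆ D := by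
    intro e he
    rw [Finset.mem_coe, Finset.mem_union] at he
    rcases he with he | he
    · obtain ⟨i, hi, rfl⟩ := Finset.mem_image.1 he
      have h1 := mem_cI.1 hi
      refine hcut _ _ ?_ h1.2.2
      rw [G_adj, q_val h1.1, q_val (lt_trans (par_lt h1.2.1) h1.1), adjB_iff]
      exact ⟨0, by norm_num, nbr_par h1.1 h1.2.1⟩
    · obtain ⟨k, hk, rfl⟩ := Finset.mem_image.1 he
      have h1 := mem_cY.1 hk
      obtain ⟨a1, a2, a3, a4⟩ := F_spec h1.1
      refine hcut _ _ ?_ h1.2
      rw [G_adj, q_val (by omega), q_val (by omega)]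
      exact a4
  have hle : (cI α).card + (cY α).card ≤ 3 := by
    have h1 : ((U₁ ∪ U₂ : Finset (Sym2 (Fin 190))) : Set (Sym2 (Fin 190))).encard < 4 :=
      lt_of_le_of_lt (Set.encard_le_encard hsub) hcard
    rw [Set.encard_coe_eq_coe_finsetCard, Finset.card_union_of_disjoint hdisj, hU₁, hU₂] at h1
    have h2 : ((cI α).card + (cY α).card : ℕ) < 4 := by exact_mod_cast h1
    omega
  obtain ⟨v, hv⟩ := cut_spec α hle
  have hpair : ∀ (w : Fin 190) (p : (G.deleteEdges D).Walk w w) (C : (G.deleteEdges D).ConnectedComponent),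
      p.IsCycle → (G.deleteEdges D).connectedComponentMk w = C →
      ∃ x : Fin 190, x.val ≠ v ∧ (G.deleteEdges D).connectedComponentMk x = C := by
    intro w p C hp hC
    by_cases hw : w.val = v
    · have h3 := hp.three_le_length
      have hadj : (G.deleteEdges D).Adj (p.getVert 0) (p.getVert 1) :=
        p.adj_getVert_succ (by omega)
      rw [p.getVert_zero] at hadj
      refine ⟨p.getVert 1, ?_, ?_⟩
      · intro h
        exact hadj.ne (Fin.ext (hw.trans h.symm))
      · rw [← hC]
        exact (SimpleGraph.ConnectedComponent.sound hadj.reachable).symm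
    · exact ⟨w, hw, hC⟩
  obtain ⟨x, hx, hxC⟩ := hpair v₁ p₁ C₁ hp₁ hc₁
  obtain ⟨y, hy, hyC⟩ := hpair v₂ p₂ C₂ hp₂ hc₂
  have h1 : α x.val = true := by rw [hα, q_self]; exact hxC
  have h2 : α y.val = true := by rw [← hv x.val y.val x.isLt y.isLt hx hy]; exact h1
  rw [hα, q_self, hyC] at h2
  exact hne h2.symm

end Pool.Agent.Helper316TS
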