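import Mathlib

/-!
# Snarks with a spanning tree `T_i`: definitions
-/

set_option autoImplicit false

namespace Pool.Agent.Helper316TS

/-- cyclically `k`-edge-connected: no set of fewer than `k` edges can be deleted to leave two
components that each contain a cycle -/
def CycConn {V : Type} (G : SimpleGraph V) (k : ℕ) : Prop :=
  ∀ D : Set (Sym2 V), D ⊆ G.edgeSet → D.encard < k →
    ¬ ∃ C₁ C₂ : (G.deleteEdges D).ConnectedComponent, C₁ ≠ C₂ ∧
      (∃ (v : V) (p : (G.deleteEdges D).Walk v v), p.IsCycle ∧
        (G.deleteEdges D).connectedComponentMk v = C₁) ∧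
      (∃ (v : V) (p : (G.deleteEdges D).Walk v v), p.IsCycle ∧
        (G.deleteEdges D).connectedComponentMk v = C₂)

/-- `G` has a proper 3-edge-colouring -/
def EdgeCol3 {V : Type} (G : SimpleGraph V) : Prop :=
  ∃ c : Sym2 V → Fin 3, ∀ v a b : V, G.Adj v a → G.Adj v b → a ≠ b → c s(v, a) ≠ c s(v, b)

/-- snarks: connected cubic graphs, cyclically 4-edge-connected, of girth at least 5 (and with a
cycle), without proper 3-edge-colouring -/
structure Snark {V : Type} (G : SimpleGraph V) : Prop where
  cubic : ∀ v, (G.neighborSet v).ncard = 3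
  conn : G.Connected
  cyc : CycConn G 4
  girth : 5 ≤ G.girth
  col : ¬ EdgeCol3 G

/-- `G` has a spanning tree isomorphic to `T_i`: a spanning tree with all degrees in `{1, 3}` that
has a vertex of degree 3 at distance exactly `i` from every leaf -/
def SpanT {V : Type} (G : SimpleGraph V) (i : ℕ) : Prop :=
  ∃ T : SimpleGraph V, T ≤ G ∧ T.IsTree ∧
    (∀ v, (T.neighborSet v).ncard = 1 ∨ (T.neighborSet v).ncard = 3) ∧
    ∃ r, (T.neighborSet r).ncard = 3 ∧ ∀ v, (T.neighborSet v).ncard = 1 → T.dist r v = i

end Pool.Agent.Helper316TS
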