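import Pool.Agent.Helper316TS.Defs
import Pool.Agent.Helper316TS.Data

/-!
The graph, its degrees and its girth.
-/

set_option autoImplicit false

namespace Pool.Agent.Helper316TS

/-- `f k` for all `k < n` -/
def allLT (n : ℕ) (f : ℕ → Bool) : Bool := Nat.rec true (fun k r => f k && r) n

theorem allLT_spec {n : ℕ} {f : ℕ → Bool} (h : allLT n f = true) : ∀ k, k < n → f k = true := by
  induction n with
  | zero => intro k hk; omega
  | succ n ih =>
    have h' : (f n && allLT n f) = true := h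
    rw [Bool.and_eq_true] at h'
    intro k hk
    rcases Nat.lt_succ_iff_lt_or_eq.1 hk with h1 | h1
    · exact ih h'.2 k h1
    · rw [h1]; exact h'.1

/-- adjacency -/
def adjB (u v : ℕ) : Bool := nbr u 0 == v || nbr u 1 == v || nbr u 2 == v

theorem adjB_iff (u v : ℕ) : adjB u v = true ↔ ∃ j, j < 3 ∧ nbr u j = v := by
  unfold adjB
  rw [Bool.or_eq_true, Bool.or_eq_true, beq_iff_eq, beq_iff_eq, beq_iff_eq]
  constructor
  · rintro ((h | h) | h)
    · exact ⟨0, by norm_num, h⟩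
    · exact ⟨1, by norm_num, h⟩
    · exact ⟨2, by norm_num, h⟩
  · rintro ⟨j, hj, h⟩
    have : j = 0 ∨ j = 1 ∨ j = 2 := by omega
    rcases this with rfl | rfl | rfl
    · exact Or.inl (Or.inl h)
    · exact Or.inl (Or.inr h)
    · exact Or.inr h

/-- check of the table of the neighbours -/
def chkNb : Bool := allLT 190 fun v =>
  (nbr v 0 != nbr v 1 && nbr v 0 != nbr v 2 && nbr v 1 != nbr v 2) &&
  allLT 3 fun j => Nat.blt (nbr v j) 190 && nbr v j != v && adjB (nbr v j) v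

theorem chkNb_true : chkNb = true := by decide +kernel

theorem nb_spec {v j : ℕ} (hv : v < 190) (hj : j < 3) :
    nbr v j < 190 ∧ nbr v j ≠ v ∧ adjB (nbr v j) v = true := by
  have h := allLT_spec chkNb_true v hv
  rw [Bool.and_eq_true] at h
  have h2 := allLT_spec h.2 j hj
  rw [Bool.and_eq_true, Bool.and_eq_true] at h2
  refine ⟨?_, ?_, h2.2⟩
  · have := h2.1.1
    rw [Nat.blt_eq] at this
    exact this
  · have := h2.1.2
    rw [bne_iff_ne] at this
    exact this

theorem nb_ne {v : ℕ} (hv : v < 190) :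
    nbr v 0 ≠ nbr v 1 ∧ nbr v 0 ≠ nbr v 2 ∧ nbr v 1 ≠ nbr v 2 := by
  have h := allLT_spec chkNb_true v hv
  rw [Bool.and_eq_true, Bool.and_eq_true, Bool.and_eq_true] at h
  exact ⟨bne_iff_ne.1 h.1.1.1, bne_iff_ne.1 h.1.1.2, bne_iff_ne.1 h.1.2⟩

/-- the graph -/
def G : SimpleGraph (Fin 190) where
  Adj u v := adjB u.val v.val = true
  symm := by
    refine ⟨fun u v h => ?_⟩
    obtain ⟨j, hj, h⟩ := (adjB_iff _ _).1 h
    have := (nb_spec u.isLt hj).2.2
    rw [h] at this
    exact this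
  loopless := by
    refine ⟨fun u h => ?_⟩
    obtain ⟨j, hj, h⟩ := (adjB_iff _ _).1 h
    exact (nb_spec u.isLt hj).2.1 h

theorem G_adj {u v : Fin 190} : G.Adj u v ↔ adjB u.val v.val = true := Iff.rfl

/-- the vertex with number `i` -/
def q (i : ℕ) : Fin 190 := ⟨i % 190, Nat.mod_lt _ (by norm_num)⟩

theorem q_val {i : ℕ} (h : i < 190) : (q i).val = i := Nat.mod_eq_of_lt h

theorem q_self (v : Fin 190) : q v.val = v := Fin.ext (q_val v.isLt)

theorem G_adj_q {i j : ℕ} (hi : i < 190) (hj : j < 3) : G.Adj (q i) (q (nbr i j)) := by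
  rw [G_adj, q_val hi, q_val (nb_spec hi hj).1, adjB_iff]
  exact ⟨j, hj, rfl⟩

theorem G_nbr (v : Fin 190) :
    G.neighborSet v = {q (nbr v.val 0), q (nbr v.val 1), q (nbr v.val 2)} := by
  ext w
  rw [SimpleGraph.mem_neighborSet, G_adj, adjB_iff]
  simp only [Set.mem_insert_iff, Set.mem_singleton_iff]
  constructor
  · rintro ⟨j, hj, h⟩
    have hw : w = q (nbr v.val j) := by rw [h, q_self]
    have : j = 0 ∨ j = 1 ∨ j = 2 := by omega
    rcases this with rfl | rfl | rfl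
    · exact Or.inl hw
    · exact Or.inr (Or.inl hw)
    · exact Or.inr (Or.inr hw)
  · rintro (h | h | h)
    · exact ⟨0, by norm_num, by rw [h, q_val (nb_spec v.isLt (by norm_num)).1]⟩
    · exact ⟨1, by norm_num, by rw [h, q_val (nb_spec v.isLt (by norm_num)).1]⟩
    · exact ⟨2, by norm_num, by rw [h, q_val (nb_spec v.isLt (by norm_num)).1]⟩

theorem q_inj {i j : ℕ} (hi : i < 190) (hj : j < 190) (h : q i = q j) : i = j := by
  have := congrArg Fin.val h
  rwa [q_val hi, q_val hj] at this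

theorem G_cubic (v : Fin 190) : (G.neighborSet v).ncard = 3 := by
  rw [G_nbr]
  obtain ⟨h1, h2, h3⟩ := nb_ne v.isLt
  rw [Set.ncard_eq_three]
  refine ⟨_, _, _, ?_, ?_, ?_, rfl⟩
  · exact fun h => h1 (q_inj (nb_spec v.isLt (by norm_num)).1 (nb_spec v.isLt (by norm_num)).1 h)
  · exact fun h => h2 (q_inj (nb_spec v.isLt (by norm_num)).1 (nb_spec v.isLt (by norm_num)).1 h)
  · exact fun h => h3 (q_inj (nb_spec v.isLt (by norm_num)).1 (nb_spec v.isLt (by norm_num)).1 h)

/-! ### girth -/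

/-- there are no closed walks without turning back of length 3, 4, 5 -/
def chkG : Bool := allLT 190 fun v0 => allLT 3 fun i1 => allLT 3 fun i2 =>
  (nbr (nbr v0 i1) i2 == v0) || allLT 3 fun i3 =>
    (nbr (nbr (nbr v0 i1) i2) i3 == nbr v0 i1) || ((nbr (nbr (nbr v0 i1) i2) i3 != v0) &&
      allLT 3 fun i4 => (nbr (nbr (nbr (nbr v0 i1) i2) i3) i4 == nbr (nbr v0 i1) i2) ||
        ((nbr (nbr (nbr (nbr v0 i1) i2) i3) i4 != v0) && allLT 3 fun i5 =>
          (nbr (nbr (nbr (nbr (nbr v0 i1) i2) i3) i4) i5 == nbr (nbr (nbr v0 i1) i2) i3) ||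
            (nbr (nbr (nbr (nbr (nbr v0 i1) i2) i3) i4) i5 != v0)))

theorem chkG_true : chkG = true := by decide +kernel

theorem walk_spec {v0 v1 v2 v3 : ℕ} (h0 : v0 < 190) (h1 : adjB v0 v1 = true)
    (h2 : adjB v1 v2 = true) (h02 : v2 ≠ v0) (h3 : adjB v2 v3 = true) (h13 : v3 ≠ v1) :
    v3 ≠ v0 ∧ ∀ v4, adjB v3 v4 = true → v4 ≠ v2 → v4 ≠ v0 ∧
      ∀ v5, adjB v4 v5 = true → v5 ≠ v3 → v5 ≠ v0 := by
  obtain ⟨i1, hi1, rfl⟩ := (adjB_iff _ _).1 h1
  obtain ⟨i2, hi2, rfl⟩ := (adjB_iff _ _).1 h2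
  obtain ⟨i3, hi3, rfl⟩ := (adjB_iff _ _).1 h3
  have c1 := allLT_spec (allLT_spec (allLT_spec chkG_true v0 h0) i1 hi1) i2 hi2
  rw [Bool.or_eq_true, beq_iff_eq] at c1
  have c2 := allLT_spec (c1.resolve_left h02) i3 hi3
  rw [Bool.or_eq_true, beq_iff_eq] at c2
  have c3 := c2.resolve_left h13
  rw [Bool.and_eq_true, bne_iff_ne] at c3
  refine ⟨c3.1, ?_⟩
  intro v4 h4 h24
  obtain ⟨i4, hi4, rfl⟩ := (adjB_iff _ _).1 h4
  have c4 := allLT_spec c3.2 i4 hi4
  rw [Bool.or_eq_true, beq_iff_eq] at c4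
  have c5 := c4.resolve_left h24
  rw [Bool.and_eq_true, bne_iff_ne] at c5
  refine ⟨c5.1, ?_⟩
  intro v5 h5 h35
  obtain ⟨i5, hi5, rfl⟩ := (adjB_iff _ _).1 h5
  have c6 := allLT_spec c5.2 i5 hi5
  rw [Bool.or_eq_true, beq_iff_eq, bne_iff_ne] at c6
  exact c6.resolve_left h35

theorem cycle_len {v : Fin 190} (p : G.Walk v v) (hp : p.IsCycle) : 6 ≤ p.length := by
  by_contra hlt
  have h3 := hp.three_le_length
  have hadj : ∀ i, i < p.length → adjB (p.getVert i).val (p.getVert (i + 1)).val = true :=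
    fun i hi => p.adj_getVert_succ hi
  have hne : ∀ i, 1 ≤ i → i + 2 ≤ p.length → (p.getVert (i + 2)).val ≠ (p.getVert i).val := by
    intro i hi1 hi2 h
    have := hp.getVert_injOn (x₁ := i + 2) (x₂ := i) (by simp only [Set.mem_ofPred_eq]; omega)
      (by simp only [Set.mem_ofPred_eq]; omega) (Fin.ext h)
    omega
  have hne0 : (p.getVert 2).val ≠ (p.getVert 0).val := by
    intro h
    have h0 : p.getVert 0 = p.getVert p.length := by
      rw [p.getVert_zero, p.getVert_length]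
    have := hp.getVert_injOn (x₁ := 2) (x₂ := p.length) (by simp only [Set.mem_ofPred_eq]; omega)
      (by simp only [Set.mem_ofPred_eq]; omega) ((Fin.ext h).trans h0)
    omega
  have hend : (p.getVert p.length).val = (p.getVert 0).val := by
    rw [p.getVert_zero, p.getVert_length]
  obtain ⟨a3, a4⟩ := walk_spec (p.getVert 0).isLt (hadj 0 (by omega)) (hadj 1 (by omega)) hne0
    (hadj 2 (by omega)) (hne 1 le_rfl (by omega))
  have hl : p.length = 3 ∨ p.length = 4 ∨ p.length = 5 := by omega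
  rcases hl with hl | hl | hl
  · rw [hl] at hend; exact a3 hend
  · rw [hl] at hend
    exact (a4 _ (hadj 3 (by omega)) (hne 2 (by norm_num) (by omega))).1 hend
  · rw [hl] at hend
    exact (a4 _ (hadj 3 (by omega)) (hne 2 (by norm_num) (by omega))).2 _ (hadj 4 (by omega))
      (hne 3 (by norm_num) (by omega)) hend

theorem exists_cycle : ∃ (v : Fin 190) (p : G.Walk v v), p.IsCycle ∧ p.length = 6 := by
  have h1 : G.Adj (q 22) (q 46) := G_adj.2 (by decide +kernel)
  have h2 : G.Adj (q 46) (q 94) := G_adj.2 (by decide +kernel)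
  have h3 : G.Adj (q 94) (q 98) := G_adj.2 (by decide +kernel)
  have h4 : G.Adj (q 98) (q 96) := G_adj.2 (by decide +kernel)
  have h5 : G.Adj (q 96) (q 47) := G_adj.2 (by decide +kernel)
  have h6 : G.Adj (q 47) (q 22) := G_adj.2 (by decide +kernel)
  refine ⟨q 22, .cons h1 (.cons h2 (.cons h3 (.cons h4 (.cons h5 (.cons h6 .nil))))), ?_, rfl⟩
  rw [SimpleGraph.Walk.isCycle_def]
  refine ⟨?_, ?_, ?_⟩
  · rw [SimpleGraph.Walk.isTrail_def]
    simp only [SimpleGraph.Walk.edges_cons, SimpleGraph.Walk.edges_nil]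
    decide +kernel
  · intro h
    exact absurd (congrArg SimpleGraph.Walk.length h) (by simp)
  · simp only [SimpleGraph.Walk.support_cons, SimpleGraph.Walk.support_nil, List.tail_cons]
    decide +kernel

theorem G_girth : G.girth = 6 := by
  obtain ⟨v, p, hp, hl⟩ := exists_cycle
  have h1 : G.girth ≤ 6 := by rw [← hl]; exact SimpleGraph.girth_le_length hp
  have hac : ¬ G.IsAcyclic := fun h => h p hp
  obtain ⟨a, w, hw, hw2⟩ := SimpleGraph.exists_girth_eq_length.2 hac
  have h2 := cycle_len w hw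
  omega

end Pool.Agent.Helper316TS
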