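import Pool.Agent.Helper316TS.Graph

/-!
The spanning tree `T_6`.
-/

set_option autoImplicit false

namespace Pool.Agent.Helper316TS

theorem par_lt {v : ℕ} (h : v ≠ 0) : par v < v := by
  unfold par; split <;> omega

theorem par_zero : par 0 = 0 := rfl

/-- check that the first neighbour is the parent -/
def chkPar : Bool := allLT 190 fun v => v == 0 || nbr v 0 == par v

theorem chkPar_true : chkPar = true := by decide +kernel

theorem nbr_par {v : ℕ} (hv : v < 190) (h : v ≠ 0) : nbr v 0 = par v := by
  have := allLT_spec chkPar_true v hv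
  rw [Bool.or_eq_true, beq_iff_eq, beq_iff_eq] at this
  exact this.resolve_left h

/-- the spanning tree -/
def T : SimpleGraph (Fin 190) where
  Adj u v := (u.val ≠ 0 ∧ par u.val = v.val) ∨ (v.val ≠ 0 ∧ par v.val = u.val)
  symm := ⟨fun _ _ h => h.symm⟩
  loopless := ⟨fun u h => by
    rcases h with h | h <;> exact absurd h.2 (par_lt h.1).ne⟩

theorem T_adj {u v : Fin 190} :
    T.Adj u v ↔ (u.val ≠ 0 ∧ par u.val = v.val) ∨ (v.val ≠ 0 ∧ par v.val = u.val) := Iff.rfl

theorem T_le : T ≤ G := by
  have h : ∀ u v : Fin 190, u.val ≠ 0 → par u.val = v.val → G.Adj u v := by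
    intro u v hu huv
    rw [G_adj, adjB_iff]
    exact ⟨0, by norm_num, by rw [nbr_par u.isLt hu, huv]⟩
  intro u v huv
  rcases huv with ⟨h1, h2⟩ | ⟨h1, h2⟩
  · exact h u v h1 h2
  · exact (h v u h1 h2).symm

/-- level -/
def lev (v : ℕ) : ℕ := if v = 0 then 0 else if v ≤ 3 then 1 else if v ≤ 9 then 2 else
  if v ≤ 21 then 3 else if v ≤ 45 then 4 else if v ≤ 93 then 5 else 6

theorem lev_par {v : ℕ} (h0 : v ≠ 0) (h : v < 190) : lev v = lev (par v) + 1 := by
  unfold lev par
  split_ifs <;> omega

theorem T_up (v : Fin 190) (h : v.val ≠ 0) : T.Adj v (q (par v.val)) := by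
  rw [T_adj]
  left
  exact ⟨h, (q_val (lt_trans (par_lt h) v.isLt)).symm⟩

theorem up_walk (n : ℕ) : ∀ v : Fin 190, v.val = n → ∃ p : T.Walk v (q 0), p.length = lev n := by
  induction n using Nat.strong_induction_on with
  | _ n ih =>
    intro v hv
    by_cases h0 : n = 0
    · have : v = q 0 := Fin.ext (by rw [hv, h0]; rfl)
      subst this
      exact ⟨.nil, by rw [h0]; rfl⟩
    · have hvn : v.val ≠ 0 := by rw [hv]; exact h0
      have hlt : par n < n := par_lt h0
      have hn : n < 190 := by rw [← hv]; exact v.isLt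
      obtain ⟨p, hp⟩ := ih (par n) hlt (q (par v.val)) (by rw [q_val (by rw [hv]; omega), hv])
      refine ⟨.cons (T_up v hvn) p, ?_⟩
      rw [SimpleGraph.Walk.length_cons, hp, lev_par h0 hn]

theorem T_conn : T.Connected := by
  have : Nonempty (Fin 190) := ⟨q 0⟩
  refine ⟨fun u v => ?_⟩
  obtain ⟨p, -⟩ := up_walk _ u rfl
  obtain ⟨p', -⟩ := up_walk _ v rfl
  exact p.reachable.trans p'.reachable.symm

theorem T_isTree : T.IsTree := by
  rw [SimpleGraph.isTree_iff_connected_and_card]
  refine ⟨T_conn, ?_⟩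
  let φ : {v : Fin 190 // v.val ≠ 0} → T.edgeSet := fun v =>
    ⟨s(v.1, q (par v.1.val)), (SimpleGraph.mem_edgeSet _).2 (T_up v.1 v.2)⟩
  have hφ : Function.Bijective φ := by
    constructor
    · intro v w hvw
      have h1 : s(v.1, q (par v.1.val)) = s(w.1, q (par w.1.val)) := congrArg Subtype.val hvw
      rw [Sym2.eq_iff] at h1
      rcases h1 with ⟨h1, -⟩ | ⟨h1, h2⟩
      · exact Subtype.ext h1
      · exfalso
        have h3 := congrArg Fin.val h1
        have h4 := congrArg Fin.val h2
        have h5 := par_lt v.2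
        have h6 := par_lt w.2
        rw [q_val (lt_trans h6 w.1.isLt)] at h3
        rw [q_val (lt_trans h5 v.1.isLt)] at h4
        omega
    · rintro ⟨e, he⟩
      induction e using Sym2.ind with
      | _ a b =>
        have he' := he
        rw [SimpleGraph.mem_edgeSet, T_adj] at he'
        rcases he' with ⟨h1, h2⟩ | ⟨h1, h2⟩
        · refine ⟨⟨a, h1⟩, Subtype.ext ?_⟩
          change s(a, q (par a.val)) = s(a, b)
          rw [h2, q_self]
        · refine ⟨⟨b, h1⟩, Subtype.ext ?_⟩
          change s(b, q (par b.val)) = s(a, b)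
          rw [h2, q_self, Sym2.eq_swap]
  have hcard : Nat.card {v : Fin 190 // v.val ≠ 0} = Nat.card T.edgeSet :=
    Nat.card_eq_of_bijective φ hφ
  rw [← hcard, Nat.card_eq_fintype_card, Nat.card_eq_fintype_card]
  decide +kernel

theorem T_nbr0 : T.neighborSet (q 0) = {q 1, q 2, q 3} := by
  ext w
  rw [SimpleGraph.mem_neighborSet, T_adj]
  simp only [Set.mem_insert_iff, Set.mem_singleton_iff, Fin.ext_iff]
  have h0 : (q 0).val = 0 := rfl
  have h1 : (q 1).val = 1 := rfl
  have h2 : (q 2).val = 2 := rfl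
  have h3 : (q 3).val = 3 := rfl
  rw [h0, h1, h2, h3]
  unfold par
  split_ifs <;> omega

theorem T_nbr1 (v : Fin 190) (h0 : v.val ≠ 0) (h : v.val ≤ 93) :
    T.neighborSet v = {q (par v.val), q (2 * v.val + 2), q (2 * v.val + 3)} := by
  ext w
  rw [SimpleGraph.mem_neighborSet, T_adj]
  simp only [Set.mem_insert_iff, Set.mem_singleton_iff, Fin.ext_iff]
  rw [q_val (lt_trans (par_lt h0) v.isLt), q_val (show 2 * v.val + 2 < 190 by omega),
    q_val (show 2 * v.val + 3 < 190 by omega)]
  unfold par
  split_ifs <;> omega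

theorem T_nbr2 (v : Fin 190) (h : 93 < v.val) :
    T.neighborSet v = {q (par v.val)} := by
  ext w
  have hw := w.isLt
  rw [SimpleGraph.mem_neighborSet, T_adj]
  simp only [Set.mem_singleton_iff, Fin.ext_iff]
  rw [q_val (lt_trans (par_lt (by omega)) v.isLt)]
  unfold par
  split_ifs <;> omega

theorem T_deg1 (v : Fin 190) (h : v.val ≤ 93) : (T.neighborSet v).ncard = 3 := by
  by_cases h0 : v.val = 0
  · have : v = q 0 := Fin.ext h0
    rw [this, T_nbr0, Set.ncard_eq_three]
    exact ⟨_, _, _, by decide, by decide, by decide, rfl⟩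
  · rw [T_nbr1 v h0 h, Set.ncard_eq_three]
    have hp := par_lt h0
    refine ⟨_, _, _, ?_, ?_, ?_, rfl⟩
    · intro h
      have := q_inj (by omega) (by omega) h
      omega
    · intro h
      have := q_inj (by omega) (by omega) h
      omega
    · intro h
      have := q_inj (by omega) (by omega) h
      omega

theorem T_deg2 (v : Fin 190) (h : 93 < v.val) : (T.neighborSet v).ncard = 1 := by
  rw [T_nbr2 v h, Set.ncard_singleton]

theorem walk_lev {u v : Fin 190} (p : T.Walk u v) : lev v.val ≤ lev u.val + p.length := by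
  induction p with
  | nil => simp
  | cons h p ih =>
    rw [SimpleGraph.Walk.length_cons]
    rename_i a b c
    have h1 : lev b.val ≤ lev a.val + 1 := by
      rcases h with ⟨h1, h2⟩ | ⟨h1, h2⟩
      · have := lev_par h1 a.isLt
        rw [h2] at this
        omega
      · have := lev_par h1 b.isLt
        rw [h2] at this
        omega
    omega

theorem T_dist (v : Fin 190) : T.dist (q 0) v = lev v.val := by
  apply le_antisymm
  · obtain ⟨p, hp⟩ := up_walk _ v rfl
    rw [← hp, ← SimpleGraph.Walk.length_reverse]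
    exact SimpleGraph.dist_le _
  · obtain ⟨p, hp⟩ := T_conn.exists_walk_length_eq_dist (q 0) v
    have := walk_lev p
    rw [← hp]
    have h0 : lev (q 0).val = 0 := rfl
    omega

theorem spanT : SpanT G 6 := by
  refine ⟨T, T_le, T_isTree, ?_, q 0, T_deg1 _ (by decide), ?_⟩
  · intro v
    by_cases h : v.val ≤ 93
    · exact Or.inr (T_deg1 v h)
    · exact Or.inl (T_deg2 v (by omega))
  · intro v hv
    have h : 93 < v.val := by
      by_contra hcon
      rw [T_deg1 v (by omega)] at hv
      omega
    rw [T_dist]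
    have := v.isLt
    unfold lev
    split_ifs <;> omega

theorem G_conn : G.Connected := T_conn.mono T_le

end Pool.Agent.Helper316TS
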